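import Pool.Agent.Helper66.PU.Defs

/-!
# Project PU: the modulus `W0 d'` and the residue classes
-/

set_option autoImplicit false

open Finset

namespace Pool.Agent.Helper66.PU

open Pool.Agent.Helper1.MT
open Pool.Agent.Helper66.PV

theorem classesU : ClassesU := by
  classical
  intro k D0 hk hD0
  obtain ⟨E, hE⟩ : ∃ E, E = 2 * k + 1 := ⟨_, rfl⟩
  have hE0 : E ≠ 0 := by omega
  set S := (range D0).filter Nat.Prime with hS
  have hSprime : ∀ p ∈ S, p.Prime := fun p hp => (Finset.mem_filter.mp hp).2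
  have hSlt : ∀ p ∈ S, p < D0 := fun p hp => Finset.mem_range.mp (Finset.mem_filter.mp hp).1
  have hSsmall : ∀ p : ℕ, p.Prime → p < D0 → p ∈ S := fun p hp hpD =>
    Finset.mem_filter.mpr ⟨Finset.mem_range.mpr hpD, hp⟩
  have hppos : ∀ p ∈ S, 0 < p ^ E := fun p hp => pow_pos (hSprime p hp).pos E
  have hs0 : ∀ p ∈ S, (fun p : ℕ => p ^ E) p ≠ 0 := fun p hp => (hppos p hp).ne'
  have hpair : Set.Pairwise (S : Set ℕ) (Function.onFun Nat.Coprime (fun p : ℕ => p ^ E)) := by
    intro p hp q hq hpq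
    exact Nat.Coprime.pow E E ((Nat.coprime_primes (hSprime p hp) (hSprime q hq)).mpr hpq)
  obtain ⟨W0, hW0⟩ : ∃ W0, W0 = ∏ p ∈ S, p ^ E := ⟨_, rfl⟩
  have hW0pos : 0 < W0 := by
    rw [hW0]
    exact Finset.prod_pos fun p hp => hppos p hp
  have hEdvd : ∀ p ∈ S, p ^ E ∣ W0 := fun p hp => by
    rw [hW0]
    exact Finset.dvd_prod_of_mem (fun p : ℕ => p ^ E) hp
  have hWdvd : ∀ p ∈ S, p ∣ W0 := fun p hp => (dvd_pow_self p hE0).trans (hEdvd p hp)
  have hmemS : ∀ p : ℕ, p.Prime → p ∣ W0 → p ∈ S := by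
    intro p hp hpW
    rw [hW0] at hpW
    obtain ⟨q, hq, hpq⟩ := (hp.prime.dvd_finsetProd_iff _).mp hpW
    have h1 : p ∣ q := hp.dvd_of_dvd_pow hpq
    have h2 : p = q := (Nat.prime_dvd_prime_iff_eq hp (hSprime q hq)).mp h1
    rw [h2]
    exact hq
  refine ⟨W0, hW0pos, fun d hd => ?_⟩
  -- the large prime factors of `d`
  obtain ⟨d', hd'⟩ : ∃ d', d' = ∏ p ∈ d.primeFactors.filter (fun p => D0 ≤ p), p := ⟨_, rfl⟩
  have hd'd : d' ∣ d := by
    rw [hd']
    exact (Finset.prod_dvd_prod_of_subset _ _ _ (Finset.filter_subset _ _)).trans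
      (Nat.prod_primeFactors_dvd d)
  have hd'pos : 0 < d' := Nat.pos_of_dvd_of_pos hd'd hd
  have hpd' : ∀ p : ℕ, p.Prime → p ∣ d' → D0 ≤ p ∧ p ∣ d := by
    intro p hp hpd
    rw [hd'] at hpd
    obtain ⟨q, hq, hpq⟩ := (hp.prime.dvd_finsetProd_iff _).mp hpd
    rw [Finset.mem_filter, Nat.mem_primeFactors] at hq
    have h2 : p = q := (Nat.prime_dvd_prime_iff_eq hp hq.1.1).mp hpq
    rw [h2]
    exact ⟨hq.2, hq.1.2.1⟩
  have hpd'2 : ∀ p : ℕ, p.Prime → D0 ≤ p → p ∣ d → p ∣ d' := by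
    intro p hp hpD hpd
    rw [hd']
    apply Finset.dvd_prod_of_mem
    rw [Finset.mem_filter, Nat.mem_primeFactors]
    exact ⟨⟨hp, hpd, hd.ne'⟩, hpD⟩
  have hcopW : Nat.Coprime W0 d' := by
    apply Nat.coprime_of_dvd
    intro p hp hpW hpd
    have h1 := hSlt p (hmemS p hp hpW)
    have h2 := (hpd' p hp hpd).1
    omega
  -- the residue class modulo `W0`
  set res : ℕ → ℕ := fun p => if p ∣ d then 1 else (if p ≤ k then (k + 1) * d else d) with hres
  obtain ⟨a0, ha0⟩ := Nat.chineseRemainderOfFinset res (fun p : ℕ => p ^ E) S hs0 hpair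
  have hcong : ∀ x : ℕ, x ≡ a0 [MOD W0] → ∀ y : ℕ, ∀ p ∈ S, x + y ≡ res p + y [MOD p ^ E] :=
    fun x hx y p hp => Nat.ModEq.add_right _ ((hx.of_dvd (hEdvd p hp)).trans (ha0 p hp))
  have h2E : 2 * k < 2 ^ E := by
    have h1 : E < 2 ^ E := Nat.lt_two_pow_self
    omega
  -- primes which are large or divide `d` do not divide `x + i d`
  have hcop : ∀ x : ℕ, x ≡ a0 [MOD W0] → Nat.Coprime x d' → ∀ i : ℕ, i < k → ∀ p : ℕ, p.Prime →
      p ∣ W0 * d' → (k < p ∨ p ∣ d) → ¬ p ∣ x + i * d := by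
    intro x hx hxd i hi p hpp hpW hpk hdvd
    rcases hpp.dvd_mul.mp hpW with hpW | hpd'1
    · have hp := hmemS p hpp hpW
      have hcE := hcong x hx (i * d) p hp
      have hcp : x + i * d ≡ res p + i * d [MOD p] := hcE.of_dvd (dvd_pow_self p hE0)
      have hdvd1 : p ∣ res p + i * d := (Nat.ModEq.dvd_iff hcp dvd_rfl).mp hdvd
      by_cases hpd : p ∣ d
      · have h1 : res p = 1 := by simp only [hres]; rw [if_pos hpd]
        rw [h1] at hdvd1
        have h2 : p ∣ 1 := (Nat.dvd_add_left (Dvd.dvd.mul_left hpd i)).mp hdvd1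
        exact hpp.one_lt.ne' (Nat.dvd_one.mp h2)
      · have hkp : k < p := hpk.resolve_right hpd
        have h1 : res p = d := by
          simp only [hres]
          rw [if_neg hpd, if_neg (by omega)]
        have h2 : res p + i * d = (i + 1) * d := by rw [h1]; ring
        rw [h2] at hdvd1
        have h3 : p ∣ i + 1 := (hpp.dvd_mul.mp hdvd1).resolve_right hpd
        have h4 : p ≤ i + 1 := Nat.le_of_dvd (by omega) h3
        omega
    · obtain ⟨_, h2⟩ := hpd' p hpp hpd'1
      have h3 : p ∣ x := (Nat.dvd_add_left (Dvd.dvd.mul_left h2 i)).mp hdvd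
      have h4 : p ∣ Nat.gcd x d' := Nat.dvd_gcd h3 hpd'1
      rw [hxd] at h4
      exact hpp.one_lt.ne' (Nat.dvd_one.mp h4)
  -- the small primes that do not divide `d`
  have hval : ∀ x : ℕ, x ≡ a0 [MOD W0] → ∀ i : ℕ, ∀ p : ℕ, p.Prime → p ≤ k → ¬ p ∣ d →
      ∀ e ≤ E, p ^ e ∣ x + i * d → p ^ e ∣ i + k + 1 := by
    intro x hx i p hpp hpk hpd e he hdvd
    have hp := hSsmall p hpp (by omega)
    have hcE := hcong x hx (i * d) p hp
    have hce : x + i * d ≡ res p + i * d [MOD p ^ e] := hcE.of_dvd (pow_dvd_pow p he)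
    have h1 : p ^ e ∣ res p + i * d := (Nat.ModEq.dvd_iff hce dvd_rfl).mp hdvd
    have h2 : res p = (k + 1) * d := by
      simp only [hres]
      rw [if_neg hpd, if_pos hpk]
    have h3 : res p + i * d = (i + k + 1) * d := by rw [h2]; ring
    rw [h3] at h1
    exact (Nat.Coprime.pow_left e ((hpp.coprime_iff_not_dvd).mpr hpd)).dvd_of_dvd_mul_right h1
  have hnE : ∀ x : ℕ, x ≡ a0 [MOD W0] → ∀ i : ℕ, i < k → ∀ p : ℕ, p.Prime → p ≤ k →
      ¬ p ∣ d → ¬ p ^ E ∣ x + i * d := by
    intro x hx i hi p hpp hpk hpd hdvd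
    have h1 := hval x hx i p hpp hpk hpd E le_rfl hdvd
    have h2 := Nat.le_of_dvd (by omega) h1
    have h3 : 2 ^ E ≤ p ^ E := Nat.pow_le_pow_left hpp.two_le E
    omega
  -- the classes
  set vv : ℕ → ℕ := fun u => (Nat.chineseRemainder hcopW a0 u : ℕ) with hvv
  have hvv1 : ∀ u, vv u ≡ a0 [MOD W0] := fun u => (Nat.chineseRemainder hcopW a0 u).2.1
  have hvv2 : ∀ u, vv u ≡ u [MOD d'] := fun u => (Nat.chineseRemainder hcopW a0 u).2.2
  have hvvlt : ∀ u, vv u < W0 * d' := fun u =>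
    Nat.chineseRemainder_lt_mul hcopW a0 u hW0pos.ne' hd'pos.ne'
  refine ⟨d', ((range d').filter (fun u => Nat.Coprime d' u)).image vv, hd'd, hd'pos, hcopW,
    ⟨Nat.mul_pos hW0pos hd'pos, ?_, ?_, ?_⟩, ?_, ?_, ?_, ?_⟩
  · intro p hp hpD
    exact Dvd.dvd.mul_right (hWdvd p (hSsmall p hp hpD)) _
  · intro i j hij p hp hdvd
    have h1 : (((i : ℕ) * d : ℕ) : ℤ) - (((j : ℕ) * d : ℕ) : ℤ) =
        (((i : ℕ) : ℤ) - ((j : ℕ) : ℤ)) * (d : ℤ) := by push_cast; ring
    rw [h1] at hdvd
    have hpi : Prime (p : ℤ) := Nat.prime_iff_prime_int.mp hp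
    rcases hpi.dvd_or_dvd hdvd with h2 | h2
    · have h3 : ((i : ℕ) : ℤ) - ((j : ℕ) : ℤ) ≠ 0 := by
        intro h
        apply hij
        ext
        omega
      have h4 := Int.le_of_dvd (abs_pos.mpr h3) ((dvd_abs _ _).mpr h2)
      have hi := i.2
      have hj := j.2
      have h5 : |((i : ℕ) : ℤ) - ((j : ℕ) : ℤ)| ≤ k := by
        rw [abs_le]
        constructor <;> omega
      exact Dvd.dvd.mul_right (hWdvd p (hSsmall p hp (by omega))) _
    · have h3 : p ∣ d := by exact_mod_cast h2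
      by_cases hpD : p < D0
      · exact Dvd.dvd.mul_right (hWdvd p (hSsmall p hp hpD)) _
      · exact Dvd.dvd.mul_left (hpd'2 p hp (by omega) h3) _
  · intro i j hij
    have h1 : (i : ℕ) * d = (j : ℕ) * d := hij
    exact Fin.ext (Nat.eq_of_mul_eq_mul_right hd h1)
  · intro p hp hpW
    rcases hp.dvd_mul.mp hpW with h | h
    · exact Or.inl (hSlt p (hmemS p hp h))
    · exact Or.inr (hpd' p hp h).2
  · intro v hv
    rw [Finset.mem_image] at hv
    obtain ⟨u, _, rfl⟩ := hv
    exact Finset.mem_range.mpr (hvvlt u)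
  · rw [Finset.card_image_of_injOn, Nat.totient_eq_card_coprime]
    intro u hu u' hu' huu
    rw [Finset.mem_coe, Finset.mem_filter, Finset.mem_range] at hu hu'
    have h1 : vv u = vv u' := huu
    have h2 : u ≡ u' [MOD d'] := by
      have h3 := (hvv2 u).symm
      rw [h1] at h3
      exact h3.trans (hvv2 u')
    exact Nat.ModEq.eq_of_lt_of_lt h2 hu.1 hu'.1
  · intro v hv
    rw [Finset.mem_image] at hv
    obtain ⟨u, hu, rfl⟩ := hv
    rw [Finset.mem_filter] at hu
    have hx1 := hvv1 u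
    have hx2 : Nat.Coprime (vv u) d' := by
      have h1 : Nat.gcd (vv u) d' = Nat.gcd u d' := (hvv2 u).gcd_eq
      unfold Nat.Coprime
      rw [h1]
      exact hu.2.symm
    refine ⟨?_, ?_⟩
    · intro i hi
      have hi1 : ((i : ℕ) + k + 1).Prime := (Finset.mem_filter.mp hi).2
      apply Nat.Coprime.symm
      apply Nat.coprime_of_dvd
      intro p hpp hpW hpN
      by_cases hc : k < p ∨ p ∣ d
      · exact hcop _ hx1 hx2 i i.2 p hpp hpW hc hpN
      · push Not at hc
        have h1 := hval _ hx1 i p hpp hc.1 hc.2 1 (by omega) (by rw [pow_one]; exact hpN)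
        rw [pow_one] at h1
        have h2 := (Nat.prime_dvd_prime_iff_eq hpp hi1).mp h1
        omega
    · intro n hn hnv i
      have hn1 : n ≡ a0 [MOD W0] := (hnv.of_dvd (dvd_mul_right W0 d')).trans hx1
      have hn2 : Nat.Coprime n d' := by
        have h1 : Nat.gcd n d' = Nat.gcd (vv u) d' :=
          (hnv.of_dvd (dvd_mul_left d' W0)).gcd_eq
        unfold Nat.Coprime
        rw [h1]
        exact hx2
      have hi := i.2
      set N := n + (i : ℕ) * d with hN
      have hN0 : 0 < N := by omega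
      set g := Nat.gcd N (W0 * d') with hg
      have hg0 : 0 < g := Nat.gcd_pos_of_pos_left _ hN0
      have hgN : g ∣ N := Nat.gcd_dvd_left _ _
      have hgW : g ∣ W0 * d' := Nat.gcd_dvd_right _ _
      have hgp : ∀ p : ℕ, p.Prime → p ∣ g → p ≤ k ∧ ¬ p ∣ d := by
        intro p hpp hpg
        by_contra hcon
        have hc : k < p ∨ p ∣ d := by
          by_contra h
          push Not at h
          exact hcon h
        exact hcop n hn1 hn2 i hi p hpp (hpg.trans hgW) hc (hpg.trans hgN)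
      have hgA : g ∣ (i : ℕ) + k + 1 := by
        rw [Nat.dvd_iff_prime_pow_dvd_dvd]
        intro p a hpp hpa
        rcases Nat.eq_zero_or_pos a with ha | ha
        · rw [ha, pow_zero]
          exact one_dvd _
        · have hpg : p ∣ g := (dvd_pow_self p ha.ne').trans hpa
          obtain ⟨h1, h2⟩ := hgp p hpp hpg
          by_cases hae : a ≤ E
          · exact hval n hn1 i p hpp h1 h2 a hae (hpa.trans hgN)
          · exfalso
            exact hnE n hn1 i hi p hpp h1 h2
              (((pow_dvd_pow p (by omega)).trans hpa).trans hgN)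
      obtain ⟨m, hm⟩ := hgN
      refine ⟨g, m, hm, hg0, ?_, fun p hpp hpg => (hgp p hpp hpg).1, ?_⟩
      · have := Nat.le_of_dvd (by omega) hgA
        omega
      · apply Nat.Coprime.symm
        apply Nat.coprime_of_dvd
        intro p hpp hpW hpm
        have hpN : p ∣ N := by rw [hm]; exact Dvd.dvd.mul_left hpm _
        by_cases hc : k < p ∨ p ∣ d
        · exact hcop n hn1 hn2 i hi p hpp hpW hc hpN
        · push Not at hc
          have hpS : p ∈ S := hSsmall p hpp (by omega)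
          obtain ⟨a, ha⟩ : ∃ a, a = g.factorization p := ⟨_, rfl⟩
          have h1 : p ^ a ∣ g := by rw [ha]; exact Nat.ordProj_dvd g p
          have h2 : ¬ p ^ (a + 1) ∣ g := by
            rw [ha]
            exact Nat.pow_succ_factorization_not_dvd hg0.ne' hpp
          have h3 : p ^ (a + 1) ∣ N := by
            rw [hm, pow_succ]
            exact Nat.mul_dvd_mul h1 hpm
          by_cases hae : a + 1 ≤ E
          · apply h2
            rw [hg]
            exact Nat.dvd_gcd h3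
              (((pow_dvd_pow p hae).trans (hEdvd p hpS)).trans (dvd_mul_right W0 d'))
          · exact hnE n hn1 i hi p hpp hc.1 hc.2 ((pow_dvd_pow p (by omega)).trans h3)

end Pool.Agent.Helper66.PU
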